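import Mathlib
import Pool.Agent.H4.TensorChain

namespace Pool.Agent.Results.MP_176834_co.NotB

open Pool.Agent.H4.TensorChain

theorem result (F : Type) [Field F] : ¬CondB F := by
  rintro ⟨c, b, s, t, -, hst, hc, H⟩
  obtain ⟨f, hf, h, -⟩ := H s ⟨le_rfl, hst.le⟩
  have two : ∀ n : ℕ, (2 : ℚ) ≤ 2 + 1 / (n + 1) := fun n => le_add_of_nonneg_right (by positivity)
  have lt : ∀ n : ℕ, (2 : ℚ) + 1 / ((n + 1 : ℕ) + 1) < 2 + 1 / (n + 1) := fun n => by
    have := Nat.one_div_lt_one_div (α := ℚ) n.lt_succ_self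
    linarith
  refine no_chain (fun n => c (2 + 1 / (n + 1))) fun n => ⟨hc _ _ (two _) (lt n).le, fun l => ?_⟩
  have := NNReal.coe_le_coe.2 (hf.1 _ _ l)
  rw [h _ (two _), h _ (two _), Rat.cast_le] at this
  exact (lt n).not_ge this

end Pool.Agent.Results.MP_176834_co.NotB
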