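import Mathlib
import Pool.Agent.H4.TensorChain

namespace Pool.Agent.Results.MP_176834_co.NotUniversal

open Pool.Agent.H4.TensorChain

theorem result (F : Type) [Field F] : ¬CountablyUniversal F := by
  intro H
  obtain ⟨φ, h⟩ := H ℤ
  exact no_chain (fun n => φ (-n)) fun n =>
    ⟨(h _ _).1 (by omega), fun l => by have := (h _ _).2 l; omega⟩

end Pool.Agent.Results.MP_176834_co.NotUniversal
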